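import Mathlib.Data.Real.Basic
import Mathlib.Tactic
import Mathlib.Analysis.SpecificLimits.Basic

/-!
# The numbers of `all jets'

`Pr i k a`: after `i` steps the jet `k` of a path is known to `(1 - a) m` digits. On a window of
relative length `2 ^ (-y m)` the jet `j` is multiplied by `2 ^ (-j y m)`: if the path law is applied
to `(1 - p) m` digits of the path, the jets `j ≠ k` must be known up to the deficit `p + j y`, and
the jet `k` becomes known up to the deficit `p + k y`. `aj_drive`: finitely many steps give all jets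
up to any deficit `η`. The scheme: in the sweep `n` the window of the step `k` is
`y = θ ^ n * 2 ^ (-k)`, `θ = 1 - 2 ^ (-d)`.
-/

set_option autoImplicit false

namespace Pool.AJN

/-- The two inequalities of one step. -/
theorem pow_ineq {j k : ℕ} (h : j < k) :
    ((k : ℝ) + 1 - j) * (1 / 2) ^ k ≤ (1 / 2) ^ j := by
  obtain ⟨i, rfl⟩ := Nat.exists_eq_add_of_lt h
  have h1 : (i : ℝ) + 1 + 1 ≤ 2 ^ (i + 1) := by
    have : i + 1 + 1 ≤ 2 ^ (i + 1) := Nat.lt_two_pow_self
    exact_mod_cast this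
  have h2 : (0 : ℝ) < (1 / 2) ^ j := by positivity
  have h3 : ((1 : ℝ) / 2) ^ (j + i + 1) * 2 ^ (i + 1) = (1 / 2) ^ j := by
    rw [show j + i + 1 = j + (i + 1) by ring, pow_add, mul_assoc, ← mul_pow]
    norm_num
  have h4 : (0 : ℝ) < (1 / 2) ^ (j + i + 1) := by positivity
  have h5 : (((j + i + 1 : ℕ) : ℝ) + 1 - j) = (i : ℝ) + 1 + 1 := by
    push_cast
    ring
  rw [h5]
  calc ((i : ℝ) + 1 + 1) * (1 / 2) ^ (j + i + 1) ≤ 2 ^ (i + 1) * (1 / 2) ^ (j + i + 1) :=
        mul_le_mul_of_nonneg_right h1 h4.le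
    _ = (1 / 2) ^ j := by rw [mul_comm, h3]

/-- **All jets.** -/
theorem aj_drive {d : ℕ} {Pr : ℕ → ℕ → ℝ → Prop}
    (hup : ∀ i k a, Pr i k a → Pr (i + 1) k a)
    (hmono : ∀ i k a a', a ≤ a' → Pr i k a → Pr i k a')
    (hinit : ∀ k, 1 ≤ k → k ≤ d → Pr 0 k 1)
    (hstep : ∀ i k (y p : ℝ), 1 ≤ k → k ≤ d → 0 ≤ y → y ≤ 1 → 0 ≤ p → p + k * y ≤ 1 →
      (∀ j, 1 ≤ j → j ≤ d → j ≠ k → Pr i j (p + j * y)) → Pr (i + 1) k (p + k * y)) :
    ∀ n k, 1 ≤ k → k ≤ d → Pr (n * d) k ((1 - (1 / 2) ^ d) ^ n) := by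
  have hup' : ∀ i i' k a, i ≤ i' → Pr i k a → Pr i' k a := by
    intro i i' k a h h1
    induction i', h using Nat.le_induction with
    | base => exact h1
    | succ n _ ih => exact hup _ _ _ ih
  obtain ⟨θ, hθ⟩ : ∃ θ : ℝ, θ = 1 - (1 / 2) ^ d := ⟨_, rfl⟩
  have hd0 : (0 : ℝ) < (1 / 2) ^ d := by positivity
  have hd1 : ((1 : ℝ) / 2) ^ d ≤ 1 := pow_le_one₀ (by norm_num) (by norm_num)
  have hθ0 : 0 ≤ θ := by rw [hθ]; linarith
  have hθ1 : θ ≤ 1 := by rw [hθ]; linarith
  rw [← hθ]
  intro n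
  induction n with
  | zero =>
    intro k h1 h2
    rw [Nat.zero_mul, pow_zero]
    exact hinit k h1 h2
  | succ n ih =>
    obtain ⟨x, hx⟩ : ∃ x : ℝ, x = θ ^ n := ⟨_, rfl⟩
    have hx0 : 0 ≤ x := by rw [hx]; positivity
    have hx1 : x ≤ 1 := by rw [hx]; exact pow_le_one₀ hθ0 hθ1
    rw [← hx] at ih
    -- the steps of one sweep
    have key : ∀ k, k ≤ d → ∀ j, 1 ≤ j → j ≤ d → Pr (n * d + k) j
        (if j ≤ k then x * (1 - (1 / 2) ^ j) else x) := by
      intro k
      induction k with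
      | zero =>
        intro _ j h1 h2
        rw [if_neg (by omega), Nat.add_zero]
        exact ih j h1 h2
      | succ k ihk =>
        intro hk j h1 h2
        have ihk := ihk (by omega)
        rcases eq_or_ne j (k + 1) with rfl | hj
        · rw [if_pos le_rfl]
          obtain ⟨y, hy⟩ : ∃ y : ℝ, y = x * (1 / 2) ^ (k + 1) := ⟨_, rfl⟩
          obtain ⟨p, hp⟩ : ∃ p : ℝ, p = x * (1 - ((k : ℝ) + 1 + 1) * (1 / 2) ^ (k + 1)) := ⟨_, rfl⟩
          have q0 : (0 : ℝ) < (1 / 2) ^ (k + 1) := by positivity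
          have q1 : ((1 : ℝ) / 2) ^ (k + 1) ≤ 1 := pow_le_one₀ (by norm_num) (by norm_num)
          have y0 : 0 ≤ y := by rw [hy]; positivity
          have y1 : y ≤ 1 := by
            rw [hy]
            exact mul_le_one₀ hx1 q0.le q1
          have e1 : ((k : ℝ) + 1 + 1) * (1 / 2) ^ (k + 1) ≤ 1 := by
            have := pow_ineq (j := 0) (k := k + 1) (by omega)
            push_cast at this
            rw [pow_zero] at this
            linarith
          have p0 : 0 ≤ p := by
            rw [hp]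
            exact mul_nonneg hx0 (by linarith)
          have e2 : p + ((k + 1 : ℕ) : ℝ) * y = x * (1 - (1 / 2) ^ (k + 1)) := by
            rw [hp, hy]
            push_cast
            ring
          rw [← e2, show n * d + (k + 1) = n * d + k + 1 by ring]
          refine hstep _ _ y p (by omega) h2 y0 y1 p0 ?_ fun i i1 i2 i3 => ?_
          · rw [e2]
            exact mul_le_one₀ hx1 (by linarith) (by linarith)
          · have h3 := ihk i i1 i2
            rcases Nat.lt_or_ge k i with h4 | h4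
            · rw [if_neg (by omega)] at h3
              refine hmono _ _ _ _ ?_ h3
              have i4 : (k : ℝ) + 1 + 1 ≤ i := by
                have : k + 1 + 1 ≤ i := by omega
                exact_mod_cast this
              have : 0 ≤ (i - ((k : ℝ) + 1 + 1)) * y := mul_nonneg (by linarith) y0
              rw [hp]
              have e3 : x * (1 - ((k : ℝ) + 1 + 1) * (1 / 2) ^ (k + 1)) + i * y =
                  x + (i - ((k : ℝ) + 1 + 1)) * y := by
                rw [hy]
                ring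
              rw [e3]
              linarith
            · rw [if_pos h4] at h3
              refine hmono _ _ _ _ ?_ h3
              have h5 := pow_ineq (j := i) (k := k + 1) (by omega)
              push_cast at h5
              have h6 : x * ((((k : ℝ) + 1) + 1 - i) * (1 / 2) ^ (k + 1)) ≤ x * (1 / 2) ^ i :=
                mul_le_mul_of_nonneg_left h5 hx0
              rw [hp, hy]
              nlinarith
        · have h3 := ihk j h1 h2
          have h4 := hup _ _ _ h3
          rw [show n * d + (k + 1) = n * d + k + 1 by ring]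
          by_cases h5 : j ≤ k
          · rw [if_pos h5] at h4
            rw [if_pos (by omega)]
            exact h4
          · rw [if_neg h5] at h4
            rw [if_neg (by omega)]
            exact h4
    intro k h1 h2
    have h3 := key d le_rfl k h1 h2
    rw [if_pos h2] at h3
    rw [show (n + 1) * d = n * d + d by ring, pow_succ, ← hx]
    refine hmono _ _ _ _ ?_ h3
    refine mul_le_mul_of_nonneg_left ?_ hx0
    rw [hθ]
    have : ((1 : ℝ) / 2) ^ d ≤ (1 / 2) ^ k := pow_le_pow_of_le_one (by norm_num) (by norm_num) h2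
    linarith

/-- **All jets, any deficit.** The number of steps depends on `d` and `η` only. -/
theorem aj_all (d : ℕ) {η : ℝ} (hη : 0 < η) : ∃ I : ℕ, ∀ {Pr : ℕ → ℕ → ℝ → Prop}
    (_ : ∀ i k a, Pr i k a → Pr (i + 1) k a)
    (_ : ∀ i k a a', a ≤ a' → Pr i k a → Pr i k a')
    (_ : ∀ k, 1 ≤ k → k ≤ d → Pr 0 k 1)
    (_ : ∀ i k (y p : ℝ), 1 ≤ k → k ≤ d → 0 ≤ y → y ≤ 1 → 0 ≤ p → p + k * y ≤ 1 →
      (∀ j, 1 ≤ j → j ≤ d → j ≠ k → Pr i j (p + j * y)) → Pr (i + 1) k (p + k * y)),
    ∀ k, 1 ≤ k → k ≤ d → Pr I k η := by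
  have hd0 : (0 : ℝ) < (1 / 2) ^ d := by positivity
  have hd1 : ((1 : ℝ) / 2) ^ d ≤ 1 := pow_le_one₀ (by norm_num) (by norm_num)
  obtain ⟨n, hn⟩ := exists_pow_lt_of_lt_one hη (show 1 - ((1 : ℝ) / 2) ^ d < 1 by linarith)
  exact ⟨n * d, fun h1 h2 h3 h4 k h5 h6 => h2 _ _ _ _ hn.le (aj_drive h1 h2 h3 h4 n k h5 h6)⟩

end Pool.AJN
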